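import Pool.Agent.L5helper65.NC.Pol

/-!
# `GE₂` of noncommutative rings with a degree function and the Farrell-Jones conjecture

`C` is any class of groups with the closure properties `ClosedE C` which contains the metabelian groups.
All this is known for the class of the groups whose wreath products with finite groups satisfy the
K- and L-theoretic Farrell-Jones conjecture with coefficients. Rings need not be commutative.

* (1) Let `R` be a ring with a degree function, `ρ : R → S` a homomorphism to a nonzero ring and `H` a
  subgroup of `GE₂(R)`, the group generated by the elementary and the diagonal matrices. If the image of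
  `H` in `GL₂(S)` is in `C`, then `H` is in `C`.
* (2) If `D` is a subring of a division ring and `GL₂(D)` is in `C`, then `GL₂(D[x₁, ..., xₙ])` is in `C`.

In (1) the ring can be a free algebra, a skew polynomial ring or the coproduct of division rings over a
division ring.

Outline of the proof. `GE₂(R)` is generated by the group `A` of the invertible matrices with
coefficients of degree zero (or zero) and the group `J` of the upper triangular matrices, and it acts on
the tree of the cosets of `A` and `J`: the degree of the first row of an alternating word grows. The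
kernel of the map to `GL₂(S)` meets the conjugates of `A` trivially and the conjugates of `J` in abelian
groups. For (2) one uses the Euclidean algorithm in `K[x]`, `K` a division ring, and the fact that `K[x]`
is a left Ore domain.
-/

set_option autoImplicit false

namespace Pool.Agent.Results.MP_b6f35e_al.DegreeFunctions

open Pool.Agent.Y110.FJ (ClosedE)

/-- The group of the invertible matrices with two rows over a ring which need not be commutative. -/
abbrev GL₂ (R : Type) [Ring R] : Type := (Matrix (Fin 2) (Fin 2) R)ˣ

/-- The homomorphism `GL₂(R) → GL₂(S)` given by a homomorphism of rings. -/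
def glMap {R S : Type} [Ring R] [Ring S] (ρ : R →+* S) : GL₂ R →* GL₂ S :=
  Units.map (ρ.mapMatrix : Matrix (Fin 2) (Fin 2) R →+* _).toMonoidHom

/-- The subgroup `GE₂(R)` of `GL₂(R)` generated by the elementary matrices (ones on the diagonal and at
least one more coefficient zero) and the invertible diagonal matrices. -/
def GE₂ (R : Type) [Ring R] : Subgroup (GL₂ R) := Subgroup.closure
  {g | (g.val 0 0 = 1 ∧ g.val 1 1 = 1 ∧ (g.val 0 1 = 0 ∨ g.val 1 0 = 0)) ∨
    (g.val 0 1 = 0 ∧ g.val 1 0 = 0)}

/-- `d` is a degree function on the ring `R`: only zero has degree `⊥`, the degree of a product is the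
sum of the degrees, the degree of a sum is at most the maximum of the degrees, and the elements of degree
zero are units. -/
structure IsDegree {R : Type} [Ring R] (d : R → WithBot ℕ) : Prop where
  bot : ∀ a, d a = ⊥ ↔ a = 0
  mul : ∀ a b, d (a * b) = d a + d b
  add : ∀ a b, d (a + b) ≤ max (d a) (d b)
  unit : ∀ a, d a = 0 → IsUnit a

/-- The polynomial ring `D[x₁, ..., xₙ]`: the monoid algebra of `ℕⁿ`. The variables commute with each
other and with the coefficients; `D` need not be commutative. -/
abbrev PolyRing (D : Type) [Ring D] (n : ℕ) : Type := AddMonoidAlgebra D (Fin n → ℕ)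

theorem result (Cl : ∀ (G : Type) [Group G], Prop) (hC : ClosedE Cl)
    (hM : ∀ (G : Type) [Group G], derivedSeries G 2 = ⊥ → Cl G) :
    (∀ (R S : Type) [Ring R] [Ring S] [Nontrivial S] (d : R → WithBot ℕ), IsDegree d →
      ∀ (ρ : R →+* S) (H : Subgroup (GL₂ R)), H ≤ GE₂ R → Cl (H.map (glMap ρ)) → Cl H) ∧
    (∀ (D K : Type) [Ring D] [DivisionRing K] (f : D →+* K), Function.Injective f →
      Cl (GL₂ D) → ∀ n, Cl (GL₂ (PolyRing D n))) := by
  refine ⟨?_, ?_⟩
  · intro R S _ _ _ d hd ρ H hH hρ
    have : Nontrivial R := ρ.domain_nontrivial
    have hd' : Pool.Agent.L5helper65.NC.IsDeg d := ⟨hd.bot, hd.mul, hd.add, hd.unit⟩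
    exact Pool.Agent.L5helper65.NC.main hC hM hd' ρ H
      (hH.trans (Pool.Agent.L5helper65.NC.GE_le hd')) hρ
  · intro D K _ _ f hf h n
    exact (Pool.Agent.L5helper65.NC.vars hC hM ⟨K, inferInstance, f, hf⟩ h n).2

end Pool.Agent.Results.MP_b6f35e_al.DegreeFunctions
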