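import Pool.Agent.L5helper65.PL.Dom2

/-!
# Automorphisms of `D[x, y]` over a domain `D` and the Farrell-Jones conjecture

`C` is any class of groups with the closure properties `ClosedE C` which contains the metabelian groups.
All this is known for the class of the groups whose wreath products with finite groups satisfy the
K- and L-theoretic Farrell-Jones conjecture with coefficients. `D` is an integral domain such that
`GL₂(D)` is in `C`.

* (1) Let `G` be a group of automorphisms of the `D`-algebra `D[x, y]` which are tame over a field
  `k ⊇ D`. If `G` has a finite orbit of points in `D²`, then `G` is in `C`.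
* (2) If the characteristic of `D` is zero, `Y` is any set of variables and `G` is any group of
  automorphisms of `D[Y][x, y]` over `D[Y]` with a finite orbit of points in `D[Y]²`, then `G` is in `C`.

So the group of all automorphisms of `ℤ[t₁, ..., tₙ][x, y]` over `ℤ[t₁, ..., tₙ]` which fix the origin
satisfies the Farrell-Jones conjecture. Over `D` such automorphisms need not be tame: the automorphism of
Nagata is one of them, for `D = ℤ[t]`.

Outline of the proof. `G` acts on the tree of the cosets of the affine and of the triangular group over
`k`. The linear part in a fixed point is a homomorphism to `GL₂(D)`; its kernel meets the stabilizers of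
the edges trivially and the stabilizers of the vertices in abelian groups. Automorphisms are tame over
fields of characteristic zero (Jung), and `GL₂(D[Y])` is in `C` by `PlaceAtInfinity`.
-/

set_option autoImplicit false

namespace Pool.Agent.Results.MP_b6f35e_al.FamiliesOfPlaneAutomorphisms

open MvPolynomial
open Pool.Agent.Y110.FJ (ClosedE)
open Pool.Agent.Helper555_TN (TAut)

/-- The polynomial ring `D[x, y]`. -/
abbrev Poly (D : Type) [CommRing D] : Type := MvPolynomial (Fin 2) D

/-- The group of all automorphisms of the `D`-algebra `D[x, y]`. -/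
abbrev AutPlane (D : Type) [CommRing D] : Type := Poly D ≃ₐ[D] Poly D

/-- The automorphism `φ` of `D[x, y]` becomes tame over `k`: there is a tame automorphism of `k[x, y]`
with the same polynomials `φ(x)`, `φ(y)`. -/
def TameOver {D : Type} [CommRing D] (k : Type) [Field k] [Algebra D k] (φ : AutPlane D) : Prop :=
  ∃ ψ ∈ TAut 2 k, ∀ i, ψ (X i) = map (algebraMap D k) (φ (X i))

/-- The image of the point `a` of the plane under the map with the coordinates `φ(x)`, `φ(y)`. -/
noncomputable def image {D : Type} [CommRing D] (φ : AutPlane D) (a : Fin 2 → D) : Fin 2 → D :=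
  fun i => eval a (φ (X i))

/-- `G` maps a finite nonempty set of points to itself. -/
def HasFiniteOrbit {D : Type} [CommRing D] (G : Subgroup (AutPlane D)) : Prop :=
  ∃ E : Set (Fin 2 → D), E.Finite ∧ E.Nonempty ∧ ∀ φ ∈ G, ∀ a ∈ E, image φ a ∈ E

open Pool.Agent.L5helper65.PL in
theorem result (Cl : ∀ (G : Type) [Group G], Prop) (hC : ClosedE Cl)
    (hM : ∀ (G : Type) [Group G], derivedSeries G 2 = ⊥ → Cl G)
    (D : Type) [CommRing D] [IsDomain D] (hD : Cl (Matrix.GeneralLinearGroup (Fin 2) D)) :
    (∀ (k : Type) [Field k] [Algebra D k], Function.Injective (algebraMap D k) →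
      ∀ G : Subgroup (AutPlane D), (∀ φ ∈ G, TameOver k φ) → HasFiniteOrbit G → Cl G) ∧
    (CharZero D → ∀ (Y : Type) (G : Subgroup (AutPlane (MvPolynomial Y D))), HasFiniteOrbit G → Cl G) := by
  refine ⟨?_, ?_⟩
  · rintro k _ _ hinj G hG ⟨E, hE, hne, hst⟩
    refine dom_orbit hC hM k hinj hD G ?_ E hE hne hst
    intro φ hφ
    obtain ⟨ψ, hψ, h⟩ := hG φ hφ
    have : bc k φ = ψ := by
      apply au_ext
      · rw [bc_X, h]
      · rw [bc_X, h]
    rw [this]
    exact taut_le k hψ
  · rintro h0 Y G ⟨E, hE, hne, hst⟩
    have h1 : CharZero (MvPolynomial Y D) := inferInstance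
    have h2 : CharZero (FractionRing (MvPolynomial Y D)) := by
      have := IsFractionRing.injective (MvPolynomial Y D) (FractionRing (MvPolynomial Y D))
      exact charZero_of_injective_algebraMap this
    refine dom_orbit hC hM (FractionRing (MvPolynomial Y D)) (IsFractionRing.injective _ _)
      (Pool.Agent.L5helper65.BT.mvpoly hC hM D hD Y) G (fun φ _ => jung _) E hE hne hst

end Pool.Agent.Results.MP_b6f35e_al.FamiliesOfPlaneAutomorphisms
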