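import Pool.Agent.L5helper65.BT.Poly

/-!
# `GL₂` of rings with a place at infinity and the Farrell-Jones conjecture

`C` is any class of groups with the closure properties `ClosedE C` which contains the metabelian groups.
All this is known for the class of the groups whose wreath products with finite groups satisfy the
K- and L-theoretic Farrell-Jones conjecture with coefficients.

Let `K` be a field with a normalized discrete valuation `v` (written multiplicatively: `v a ≤ 1` means
that `a` is integral at `v`).

* (1) Let `G` be a group with a homomorphism `l` to `GL₂(K)` such that the determinants are units at `v`,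
  and let `f` be a homomorphism from `G` to a group in `C`. Suppose that `l g` is unipotent for all `g` in
  the kernel of `f` such that the trace of `l g` is integral at `v`, and that `(l, f)` is injective. Then
  `G` is in `C`.
* (2) Let `A` be a subring of `K` such that no element `a ≠ 0` of `A` has a zero at `v`, and let `ρ` be a
  homomorphism from `A` to a commutative ring `F` which is injective on the elements of `A` which are
  integral at `v`. If `GL₂(F)` is in `C`, then `GL₂(A)` is in `C`. For instance `A` can be the ring of
  the regular functions on the complement of a prime divisor `E` of a normal projective variety `X`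
  over a field `k`, and `ρ` the evaluation in a rational point outside `E`; then `F = k`.
* (3) If `D` is a domain and `GL₂(D)` is in `C`, then `GL₂(D[X])` is in `C` for every set `X` of
  variables. For instance the groups `GL₂(ℤ[x_1, ..., x_n])` are Farrell-Jones groups.

Outline of the proof of (1). `G` acts on the tree of `(K, v)`. If `g` fixes a vertex then the trace of
`l g` is integral, so the stabilizers of the vertices in the kernel of `f` consist of unipotent matrices.
Unipotent matrices with unipotent product commute if they have two rows. So these stabilizers are
abelian and the theorem on edge groups which embed in the first homology of the vertex groups of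
the kernel of a homomorphism (`N509.TK.hcrit`, from the starting files) can be applied.
-/

set_option autoImplicit false

namespace Pool.Agent.Results.MP_b6f35e_al.PlaceAtInfinity

open Pool.Agent.Y110.FJ (ClosedE)
open scoped WithZero

theorem result (C : ∀ (G : Type) [Group G], Prop) (hC : ClosedE C)
    (hM : ∀ (G : Type) [Group G], derivedSeries G 2 = ⊥ → C G) :
    (∀ (G P K : Type) [Group G] [Group P] [Field K] (v : Valuation K ℤᵐ⁰)
        (l : G →* Matrix.GeneralLinearGroup (Fin 2) K) (f : G →* P),
      Function.Surjective v → C P → (∀ g, v (l g).val.det = 1) →
      (∀ g, f g = 1 → v (l g).val.trace ≤ 1 → (l g).val.trace = 2 ∧ (l g).val.det = 1) →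
      (∀ g, f g = 1 → l g = 1 → g = 1) → C G) ∧
    (∀ (A F K : Type) [CommRing A] [CommRing F] [Field K] (v : Valuation K ℤᵐ⁰)
        (ι : A →+* K) (ρ : A →+* F),
      Function.Surjective v → Function.Injective ι → (∀ a, a ≠ 0 → 1 ≤ v (ι a)) →
      (∀ a, v (ι a) = 1 → ρ a ≠ 0) →
      C (Matrix.GeneralLinearGroup (Fin 2) F) → C (Matrix.GeneralLinearGroup (Fin 2) A)) ∧
    (∀ (D X : Type) [CommRing D] [IsDomain D], C (Matrix.GeneralLinearGroup (Fin 2) D) →
      C (Matrix.GeneralLinearGroup (Fin 2) (MvPolynomial X D))) := by
  refine ⟨?_, ?_, ?_⟩
  · intro G P K _ _ _ v l f hv hP hdet htr hinj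
    exact Pool.Agent.L5helper65.BT.main_group hC hM hv l f hP hdet htr hinj
  · intro A F K _ _ _ v ι ρ hv hι hneg hρ hF
    exact Pool.Agent.L5helper65.BT.main hC hM ι hι hv hneg ρ hρ hF
  · intro D X _ _ hD
    exact Pool.Agent.L5helper65.BT.mvpoly hC hM D hD X

end Pool.Agent.Results.MP_b6f35e_al.PlaceAtInfinity
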