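import Pool.Agent.L5helper65.PL.Fin

/-!
# Polynomial automorphisms of the affine plane and the Farrell-Jones conjecture

`C` is any class of groups with the closure properties `ClosedE C` and `AcylF C` which contains the
metabelian groups. All this is known for the class of the groups whose wreath products with finite
groups satisfy the K- and L-theoretic Farrell-Jones conjecture with coefficients (`AcylF` is a theorem
of Knopf on acylindrical actions on trees). `k` is a field of characteristic zero such that `GL₂(k)` is
in `C`. Then the group of all automorphisms of the `k`-algebra `k[x, y]` is in `C`.

So the automorphism group of the affine plane over the algebraic numbers satisfies the K- and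
L-theoretic Farrell-Jones conjecture (by Rüping the groups `GL_m(ℚ)` are Farrell-Jones groups). The
first Weyl algebra and the free associative algebra `k⟨x, y⟩` have automorphism groups which are
isomorphic to subgroups of `Aut k[x, y]` (theorems of Makar-Limanov and Czerniakiewicz).

Outline of the proof. The cosets of the affine and of the triangular group are the vertices of a tree,
because the degrees of reduced words grow. One shows Jung's theorem (with the inequality of Shestakov
and Umirbaev from the starting files), that finitely generated subgroups are defined over finitely
generated fields, that these have finitely many roots of unity, and that the elements which fix a path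
of length 7 are determined by a root of unity.
-/

set_option autoImplicit false

namespace Pool.Agent.Results.MP_b6f35e_al.PlaneAutomorphisms

open Pool.Agent.Y110.FJ (ClosedE)
open Pool.Agent.N509.TX (AcylF)

/-- The polynomial ring `k[x, y]`. -/
abbrev Poly (k : Type) [Field k] : Type := MvPolynomial (Fin 2) k

/-- The group of all automorphisms of the `k`-algebra `k[x, y]`. -/
def AutPlane (k : Type) [Field k] : Type := Poly k ≃ₐ[k] Poly k

noncomputable instance (k : Type) [Field k] : Group (AutPlane k) :=
  inferInstanceAs (Group (Poly k ≃ₐ[k] Poly k))

theorem result (Cl : ∀ (G : Type) [Group G], Prop) (hC : ClosedE Cl) (hA : AcylF Cl)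
    (hM : ∀ (G : Type) [Group G], derivedSeries G 2 = ⊥ → Cl G)
    (k : Type) [Field k] [CharZero k] (hk : Cl (Matrix.GeneralLinearGroup (Fin 2) k)) :
    Cl (AutPlane k) :=
  Pool.Agent.L5helper65.PL.aut_plane hC hM hA k hk

end Pool.Agent.Results.MP_b6f35e_al.PlaneAutomorphisms
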